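import Mathlib
import Pool.Agent.W307.SE.Avg2G
import Pool.Agent.W307.SE.Fin
import Pool.Agent.TH841.PT.ANTX
import Pool.Agent.TH841.PT.RSP
import Pool.Agent.TH841.PT.RVU
import Pool.Agent.W358.RK2.GR

/-!
# Project H, part AVGK (subtask 11155): the average of the `k`-th powers over the coprime pairs of a
short square, with a power of the logarithm; the core theorem

After `Pool.Agent.W307.SE.avg2g_of` and `Pool.Agent.N870.D.avgE`.
-/

set_option autoImplicit false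

namespace Pool.Agent.N701.H.AVGK

open Finset Pool.Agent.W262.RK Pool.Agent.W307.RT Pool.Agent.W307.RS Pool.Agent.W782.RS
open Pool.Agent.W307.SE

open Pool.Agent.TH841.PT (gp ANTX RSP RVP RUP)

open Pool.Agent.W405.RK2 (mem_Tup)

lemma grow_div {A X W1 W2 W3 e p q : ℝ} (he : 0 < e) (hp : 0 < p) (hpq : p ≤ q) (hX : 0 ≤ X)
    (hA : 0 ≤ A) (h1 : 0 ≤ W1) (h2 : 0 ≤ W2) (h3 : 0 ≤ W3) :
    A * X * W1 * W2 * W3 / e ≤ A * (X * q) * W1 * W2 * W3 / (e * p) := by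
  rw [div_le_div_iff₀ he (mul_pos he hp)]
  have h0 : 0 ≤ A * X * W1 * W2 * W3 * e := by positivity
  nlinarith [mul_le_mul_of_nonneg_left hpq h0]

theorem antx : ANTX := Pool.Agent.TH841.PT.ANTXf.antx_of Pool.Agent.W358.RK2.gr

variable {J : Type} [Fintype J] [DecidableEq J]

/-- the average of the `k0`-th powers over the coprime pairs of a short square -/
theorem core (hrank : R2G SN) (hcnt : CNT2S) (k0 : ℕ) (E : ℝ) (hE : 0 ≤ E) (cls : J → Fin 4)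
    (a : Fin 3 → ℤ) (μ : J → ℕ) (α β : J → ℤ) (hcls : ∀ j, cls j ≠ 3) (ha : ∀ k, a k ≠ 0)
    (hμ : ∀ j, 1 ≤ μ j) (hα : ∀ j, α j ≠ 0) (hR : ∀ j l, j ≠ l → Res α β j l ≠ 0)
    (hev : ∀ k, Even (∑ l ∈ fc cls k, μ l))
    (hodd : ∀ j, Odd (μ j) ∨ IsSquare (kapM cls a μ α β j))
    (hF : ∀ u v : ℤ, FM cls a μ (fv α β u v) 0 - FM cls a μ (fv α β u v) 1 =
      FM cls a μ (fv α β u v) 2)
    (hsum : ∃ z0 : ℕ, ∀ z, z0 ≤ z → ∃ C' : ℝ, ∀ y, z < y →
      ∑ s ∈ Tup J z y, NB cls (fun j _ => kapM cls a μ α β j) s ^ k0 *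
        ∏ j, gw 1 (Fintype.card J) (s j) ≤ C' * (Real.log y) ^ ((Fintype.card J : ℝ) + E))
    (B : ℕ) : ∃ C : ℝ, ∀ (N1 N2 : ℤ) (X : ℕ), 1 ≤ X → N1.natAbs ≤ X ^ B → N2.natAbs ≤ X ^ B →
    ∑ t ∈ (Icc 1 X ×ˢ Icc 1 X).filter (fun t : ℕ × ℕ =>
      IsCoprime (N1 + (t.1 : ℤ)) (N2 + (t.2 : ℤ)) ∧
      ∀ j, fv α β (N1 + (t.1 : ℤ)) (N2 + (t.2 : ℤ)) j ≠ 0),
    SN (FM cls a μ (fv α β (N1 + (t.1 : ℤ)) (N2 + (t.2 : ℤ))) 0)
        (FM cls a μ (fv α β (N1 + (t.1 : ℤ)) (N2 + (t.2 : ℤ))) 1) ^ k0 ≤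
      C * (X ^ 2 * (1 + Real.log X) ^ E) := by
  classical
  obtain ⟨z0, hz0⟩ := hsum
  set N := Fintype.card J with hN
  set κ : J → Fin 3 → ℤ := fun j _ => kapM cls a μ α β j with hκdef
  set z : ℕ := z0 + (2 * N + 6) + ∑ k, (a k).natAbs + ∑ j, (α j).natAbs +
    ∑ j, ∑ l, (Res α β j l).natAbs + ∑ j, (kapM cls a μ α β j).natAbs with hz
  have hB : Bg α β z := by
    refine ⟨by omega, fun p hp hzp => ⟨fun j h => ?_, fun j l hjl h => ?_⟩⟩
    · have h1 := Nat.le_of_dvd (Int.natAbs_pos.2 (hα j)) (Int.natCast_dvd.1 h)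
      have h2 := single_le_sum (f := fun j => (α j).natAbs) (fun _ _ => Nat.zero_le _) (mem_univ j)
      omega
    · have h1 := Nat.le_of_dvd (Int.natAbs_pos.2 (hR j l hjl)) (Int.natCast_dvd.1 h)
      have h2 := single_le_sum (f := fun l => (Res α β j l).natAbs) (fun _ _ => Nat.zero_le _)
        (mem_univ l)
      have h3 := single_le_sum (f := fun j => ∑ l, (Res α β j l).natAbs) (fun _ _ => Nat.zero_le _)
        (mem_univ j)
      omega
  have hpa : ∀ p : ℕ, p.Prime → z < p → ∀ k, ¬ (p : ℤ) ∣ a k := by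
    intro p hp hzp k h
    have h1 := Nat.le_of_dvd (Int.natAbs_pos.2 (ha k)) (Int.natCast_dvd.1 h)
    have h2 := single_le_sum (f := fun k => (a k).natAbs) (fun _ _ => Nat.zero_le _) (mem_univ k)
    omega
  have hκ0 : ∀ j, kapM cls a μ α β j ≠ 0 := Pool.Agent.W230.RT.kapM_ne ha hR
  have hκz : ∀ j, (kapM cls a μ α β j).natAbs ≤ z := by
    intro j
    have h2 := single_le_sum (f := fun j => (kapM cls a μ α β j).natAbs)
      (fun _ _ => Nat.zero_le _) (mem_univ j)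
    omega
  have hz2 : 2 ≤ z := by omega
  have hzN : 2 * N + 6 ≤ z := by omega
  clear_value z
  obtain ⟨C', hC'⟩ := hz0 z (by omega)
  obtain ⟨C, K, y0, hC0, hK1, hcn⟩ := hcnt J α β z B hB
  have hsubb : SUBB := Pool.Agent.W125.RK2.subb_of Pool.Agent.W125.RK2.sub4
    Pool.Agent.W342.RK2.xcl
  set y1 : ℕ := y0 + 2 * ∑ j, ((α j).natAbs + (β j).natAbs) + 1 with hy1
  -- the constant of the weights
  set c : ℕ := max N 1 with hc
  have hc1 : 1 ≤ c := le_max_right _ _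
  have hcz : 2 * c + 2 ≤ z := by omega
  have hgp : ∀ s : J → ℕ, ∏ j, gw 1 N (s j) = ∏ j, gp (fun _ => 1) c (s j) := by
    intro s
    refine prod_congr rfl fun j _ => ?_
    have h1 : 1 ≤ N := by
      rw [hN]
      exact Fintype.card_pos_iff.2 ⟨j⟩
    have h2 : c = N := by omega
    rw [h2]
    rfl
  have hgp' : ∀ s : J → ℕ, ∏ j, ((4 : ℝ) ^ k0) ^ (s j).primeFactors.card * (gw 1 N (s j) / s j) =
      ∏ j, ((4 : ℝ) ^ k0) ^ (s j).primeFactors.card * (gp (fun _ => 1) c (s j) / s j) := by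
    intro s
    refine prod_congr rfl fun j _ => ?_
    have h1 : 1 ≤ N := by
      rw [hN]
      exact Fintype.card_pos_iff.2 ⟨j⟩
    have h2 : c = N := by omega
    rw [h2]
    rfl
  have hNz : N ≤ z := by omega
  have hgw : ∀ {y' : ℕ} {s : J → ℕ} (_ : s ∈ Tup J z y') (i : J), 0 ≤ gw 1 N (s i) := by
    intro y' s hs i
    have h1 := Pool.Agent.TH841.PT.RSPf.gp_nonneg (a := fun _ => 1) (c := N) (z := z) (y := y')
      (fun _ => zero_le_one) hNz ((mem_Tup.1 hs).1 i)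
    exact h1
  have hlog : ∀ y : ℕ, z < y → 0 < Real.log y := fun y hy =>
    Real.log_pos (by exact_mod_cast (by omega : 1 < y))
  have hnb : ∀ s, 0 ≤ NB cls κ s := by
    intro s
    unfold NB
    exact mul_nonneg (by positivity) (sum_nonneg fun _ _ => Nat.cast_nonneg _)
  have h4k : (1 : ℝ) ≤ 4 ^ k0 := one_le_pow₀ (by norm_num)
  have hr0 : ∀ N1 N2 (t : ℕ × ℕ), 0 ≤ RRg SN cls a μ α β N1 N2 t ^ k0 := fun N1 N2 t =>
    pow_nonneg (RRg_nonneg SN_nonneg _ _ _ _ _ _ _ _) k0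
  have key := antx J (ℕ × ℕ) (Th B) (fun θ => TS α β θ.1.1 θ.1.2.1 θ.1.2.2)
    (fun θ => θ.1.2.2)
    (fun θ t => fv α β (θ.1.1 + (t.1 : ℤ)) (θ.1.2.1 + (t.2 : ℤ)))
    (fun θ => (θ.1.2.2 : ℝ) ^ 2 * (1 + Real.log (θ.1.2.2 : ℝ)) ^ E) z
    (fun y => (Real.log y) ^ ((N : ℝ) + E))
    (fun s => NB cls κ s ^ k0 * ∏ j, gw 1 N (s j))
    (fun v => ∏ j, ((4 : ℝ) ^ k0) ^ (v j).primeFactors.card * (gw 1 N (v j) / v j))
    (fun u => ∏ j, ((1 : ℝ) ^ (u j).primeFactors.card / (u j : ℝ)))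
    (fun θ t => RRg SN cls a μ α β θ.1.1 θ.1.2.1 t ^ k0)
    (C * (4 ^ (z + 2)) ^ k0) (((4 ^ (B + 2)) ^ N) ^ k0) K y1 hz2
    (fun y hy => Real.rpow_pos_of_pos (hlog y hy) _)
    (fun θ => θ.2.1)
    (fun θ => by
      have := Real.log_natCast_nonneg θ.1.2.2
      positivity) (fun X0 => ?_)
    (fun θ ω hω => ?_) (fun θ t => hr0 _ _ _)
    (by positivity)
    (one_le_pow₀ (one_le_pow₀ (one_le_pow₀ (by norm_num)))) hK1
    (fun y s hs => ⟨?_, ?_⟩) (fun y Y hzy u hu => ?_) (fun lam hlam => ?_)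
    (fun lam hlam => ?_) (fun lam hlam => ?_) ?_
  · obtain ⟨C2, hC2⟩ := key
    refine ⟨C2, fun N1 N2 X hX h1 h2 => ?_⟩
    have h3 := hC2 ⟨(N1, N2, X), hX, h1, h2⟩
    have e : TS α β N1 N2 X = (Icc 1 X ×ˢ Icc 1 X).filter (fun t : ℕ × ℕ =>
      IsCoprime (N1 + (t.1 : ℤ)) (N2 + (t.2 : ℤ)) ∧
      ∀ j, fv α β (N1 + (t.1 : ℤ)) (N2 + (t.2 : ℤ)) j ≠ 0) := by
      unfold TS
      congr
    rw [← e]
    exact h3
  · obtain ⟨D, hD0, hD⟩ := small
      (fun N1 N2 X => ∑ t ∈ TS α β N1 N2 X, RRg SN cls a μ α β N1 N2 t ^ k0)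
      (fun _ _ _ => sum_nonneg fun _ _ => hr0 _ _ _) B X0
    refine ⟨D, fun θ hθ => ?_⟩
    refine (hD θ.1.1 θ.1.2.1 θ.1.2.2 θ.2.1 hθ θ.2.2.1 θ.2.2.2).trans ?_
    have h1 : (1 : ℝ) ≤ (θ.1.2.2 : ℝ) ^ 2 := one_le_pow₀ (by exact_mod_cast θ.2.1)
    have hlX : 0 ≤ Real.log (θ.1.2.2 : ℝ) := Real.log_natCast_nonneg θ.1.2.2
    have h5 : (1 : ℝ) ≤ (1 + Real.log (θ.1.2.2 : ℝ)) ^ E := Real.one_le_rpow (by linarith) hE
    exact le_mul_of_one_le_right hD0 (one_le_mul_of_one_le_of_one_le h1 h5)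
  · simp only [TS, mem_filter] at hω
    exact gd_fvZ hB hω.2.1 hω.2.2
  · exact mul_nonneg (pow_nonneg (hnb s) k0) (prod_nonneg fun i _ => hgw hs i)
  · exact prod_nonneg fun i _ => mul_nonneg (by positivity)
      (div_nonneg (hgw hs i) (Nat.cast_nonneg _))
  · exact prod_nonneg fun i _ => by positivity
  · -- the first sum
    obtain ⟨A, hA⟩ := Pool.Agent.TH841.PT.RSPf.rsp J z c (fun _ _ => 1) (fun s => NB cls κ s ^ k0)
      (fun y => C' * (Real.log y) ^ ((N : ℝ) + E)) (4 ^ k0) lam hcz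
      (fun i p => ⟨zero_le_one, by exact_mod_cast hc1⟩) h4k hlam (fun s => pow_nonneg (hnb s) k0)
      (fun y hy s e hse => by
        have h1 := hsubb J cls κ z y hz2 (fun j _ => hκ0 j) (fun j _ => hκz j) s e hse
        have h2 := pow_le_pow_left₀ (hnb _) h1 k0
        refine h2.trans (le_of_eq ?_)
        rw [mul_pow, ← pow_mul, ← pow_mul, mul_comm k0])
      (fun y hy => by
        refine le_trans (le_of_eq (sum_congr rfl fun s _ => ?_)) (hC' y hy)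
        rw [← hgp s])
    refine ⟨A * C', fun y hy => ?_⟩
    have h1 := hA y hy
    rw [mul_assoc]
    refine le_trans (le_of_eq (sum_congr rfl fun s _ => ?_)) h1
    rw [← hgp s]
  · obtain ⟨A, hA⟩ := Pool.Agent.TH841.PT.RVU.rvp J z c (fun _ _ => 1) (4 ^ k0) lam hcz
      (fun i p => ⟨zero_le_one, by exact_mod_cast hc1⟩) h4k hlam
    refine ⟨A, fun y hy => ?_⟩
    refine le_trans (le_of_eq (sum_congr rfl fun v _ => ?_)) (hA y hy)
    rw [hgp' v]
  · exact Pool.Agent.TH841.PT.RVU.rup J 1 lam le_rfl hlam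
  -- the local majorant
  rintro ⟨⟨N1, N2, X⟩, hX1, hN1, hN2⟩ y Y k hy0 hzy hyK hk s hs v hv u hu h8 T' hT' hT2
  simp only at hX1 hN1 hN2 hyK hk h8 hT' hT2 ⊢
  have hy00 : y0 ≤ y := by omega
  have hyX : y ≤ X := le_trans (Nat.le_self_pow (by omega) y) hyK
  set g : ℝ := (NL (∏ j, s j) (LLs cls κ s ∅) : ℝ) with hg
  have hg0 : 0 ≤ g := Nat.cast_nonneg _
  have h1 : ∀ t ∈ T', RRg SN cls a μ α β N1 N2 t ^ k0 ≤
      (4 ^ (z + 2) * ((4 ^ (B + 2)) ^ N) ^ k * 4 ^ (∑ j, (v j).primeFactors.card) * g) ^ k0 := by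
    intro t ht
    have ht1 := hT' ht
    simp only [TS, mem_filter, mem_product, mem_Icc] at ht1
    obtain ⟨hts, htv, _⟩ := hT2 t ht
    have hr := hrank J cls a μ α β z (B + 2) hcls ha hμ hB hpa hev hκ0 hκz hodd hF X y k
      (N1 + (t.1 : ℤ)) (N2 + (t.2 : ℤ)) ht1.2.1 ht1.2.2 (fun j => by
        unfold fv
        have h3 := Int.natAbs_add_le (α j * (N1 + (t.1 : ℤ))) (β j * (N2 + (t.2 : ℤ)))
        rw [Int.natAbs_mul, Int.natAbs_mul] at h3
        have h4 := single_le_sum (f := fun j => (α j).natAbs + (β j).natAbs)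
          (fun _ _ => Nat.zero_le _) (mem_univ j)
        have h5 : (N1 + (t.1 : ℤ)).natAbs ≤ X ^ B + X := by
          have h51 : t.1 ≤ X := ht1.1.1.2
          omega
        have h5' : (N2 + (t.2 : ℤ)).natAbs ≤ X ^ B + X := by
          have h51 : t.2 ≤ X := ht1.1.2.2
          omega
        have h6 : 2 * ((α j).natAbs + (β j).natAbs) ≤ X := by
          have h4' : (α j).natAbs + (β j).natAbs ≤ ∑ j, ((α j).natAbs + (β j).natAbs) := h4
          have h8' : y0 + 2 * ∑ j, ((α j).natAbs + (β j).natAbs) + 1 ≤ X := le_trans hy0 hyX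
          generalize (∑ j, ((α j).natAbs + (β j).natAbs)) = sg at h4' h8'
          omega
        have h7 : X ^ B + X ≤ 2 * X ^ (B + 1) := by
          have h71 : X ^ B ≤ X ^ (B + 1) := Nat.pow_le_pow_right hX1 (by omega)
          have h72 : X ≤ X ^ (B + 1) := Nat.le_self_pow (by omega) X
          generalize X ^ (B + 1) = e1 at h71 h72 ⊢
          generalize X ^ B = e2 at h71 ⊢
          omega
        calc (α j * (N1 + (t.1 : ℤ)) + β j * (N2 + (t.2 : ℤ))).natAbs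
            ≤ (α j).natAbs * (N1 + (t.1 : ℤ)).natAbs + (β j).natAbs * (N2 + (t.2 : ℤ)).natAbs := h3
          _ ≤ (α j).natAbs * (X ^ B + X) + (β j).natAbs * (X ^ B + X) :=
              add_le_add (Nat.mul_le_mul_left _ h5) (Nat.mul_le_mul_left _ h5')
          _ = ((α j).natAbs + (β j).natAbs) * (X ^ B + X) := by ring
          _ ≤ ((α j).natAbs + (β j).natAbs) * (2 * X ^ (B + 1)) := Nat.mul_le_mul_left _ h7
          _ = 2 * ((α j).natAbs + (β j).natAbs) * X ^ (B + 1) := by ring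
          _ ≤ X * X ^ (B + 1) := Nat.mul_le_mul_right _ h6
          _ = X ^ (B + 2) := by ring) hX1 (by omega) hk
    have hts' : S1 z y (fv α β (N1 + (t.1 : ℤ)) (N2 + (t.2 : ℤ))) = s := hts
    have htv' : S2 z y (fv α β (N1 + (t.1 : ℤ)) (N2 + (t.2 : ℤ))) = v := htv
    rw [hts', htv'] at hr
    unfold RRg
    rw [hg, hN]
    exact pow_le_pow_left₀ (SN_nonneg _ _) hr k0
  set Q : ℝ := C * X ^ 2 * (∏ j, gw 1 N (s j)) *
        (∏ j, gw 1 N (v j) / v j) * (∏ j, 1 / (u j : ℝ)) / (Real.log y) ^ N with hQ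
  have h3 : (T'.card : ℝ) ≤ Q := by
    refine le_trans ?_ (hcn N1 N2 X y Y hN1 hN2 hy00 hzy hyK s hs v hv u hu h8)
    have h4 : T' ⊆ (Icc 1 X ×ˢ Icc 1 X).filter (fun t : ℕ × ℕ =>
        IsCoprime (N1 + (t.1 : ℤ)) (N2 + (t.2 : ℤ)) ∧
        S1 z y (fv α β (N1 + (t.1 : ℤ)) (N2 + (t.2 : ℤ))) = s ∧
        S2 z y (fv α β (N1 + (t.1 : ℤ)) (N2 + (t.2 : ℤ))) = v ∧
        ∀ j, (u j : ℤ) ∣ fv α β (N1 + (t.1 : ℤ)) (N2 + (t.2 : ℤ)) j) := by
      intro t ht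
      have ht1 := hT' ht
      simp only [TS, mem_filter] at ht1
      rw [mem_filter]
      exact ⟨ht1.1, ht1.2.1, (hT2 t ht).1, (hT2 t ht).2.1, (hT2 t ht).2.2⟩
    exact_mod_cast card_le_card h4
  calc ∑ t ∈ T', RRg SN cls a μ α β N1 N2 t ^ k0
      ≤ ∑ _t ∈ T', ((4 : ℝ) ^ (z + 2) * ((4 ^ (B + 2)) ^ N) ^ k *
          4 ^ (∑ j, (v j).primeFactors.card) * g) ^ k0 := sum_le_sum h1
    _ = (T'.card : ℝ) *
          (4 ^ (z + 2) * ((4 ^ (B + 2)) ^ N) ^ k * 4 ^ (∑ j, (v j).primeFactors.card) * g) ^ k0 := by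
        rw [sum_const, nsmul_eq_mul]
    _ ≤ Q * (4 ^ (z + 2) * ((4 ^ (B + 2)) ^ N) ^ k *
          4 ^ (∑ j, (v j).primeFactors.card) * g) ^ k0 :=
        mul_le_mul_of_nonneg_right h3 (by positivity)
    _ = (C * (4 ^ (z + 2)) ^ k0 * (((4 ^ (B + 2)) ^ N) ^ k0) ^ k) * (X : ℝ) ^ 2 *
          (NB cls κ s ^ k0 * ∏ j, gw 1 N (s j)) *
          (∏ j, ((4 : ℝ) ^ k0) ^ (v j).primeFactors.card * (gw 1 N (v j) / v j)) *
          (∏ j, ((1 : ℝ) ^ (u j).primeFactors.card / (u j : ℝ))) / (Real.log y) ^ N := by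
        have e1 : NB cls κ s = g := Pool.Agent.W230.RT.nb_eq hcls κ s
        have e2 : (∏ j, ((4 : ℝ) ^ k0) ^ (v j).primeFactors.card * (gw 1 N (v j) / v j)) =
            (4 ^ (∑ j, (v j).primeFactors.card)) ^ k0 * ∏ j, (gw 1 N (v j) / v j) := by
          rw [prod_mul_distrib, prod_pow_eq_pow_sum, ← pow_mul, ← pow_mul, mul_comm k0]
        have e4 : ((((4 : ℝ) ^ (B + 2)) ^ N) ^ k) ^ k0 = ((((4 : ℝ) ^ (B + 2)) ^ N) ^ k0) ^ k :=
          pow_right_comm _ _ _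
        simp only [one_pow]
        rw [e1, e2, hQ, mul_pow, mul_pow, mul_pow, e4]
        ring
    _ ≤ _ := by
        have hly := hlog y hzy
        have hlX : Real.log y ≤ 1 + Real.log X := by
          have := Real.log_le_log (by exact_mod_cast (by omega : 0 < y))
            (show (y : ℝ) ≤ X by exact_mod_cast hyX)
          linarith
        have hpow : (Real.log y) ^ E ≤ (1 + Real.log X) ^ E := Real.rpow_le_rpow hly.le hlX hE
        have hP : 0 < (Real.log y) ^ E := Real.rpow_pos_of_pos hly _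
        have hW1 : 0 ≤ NB cls κ s ^ k0 * ∏ j, gw 1 N (s j) :=
          mul_nonneg (pow_nonneg (hnb s) k0) (prod_nonneg fun i _ => hgw hs i)
        have hW2 : 0 ≤ ∏ j, ((4 : ℝ) ^ k0) ^ (v j).primeFactors.card * (gw 1 N (v j) / v j) :=
          prod_nonneg fun i _ => mul_nonneg (by positivity)
            (div_nonneg (hgw hv i) (Nat.cast_nonneg _))
        have hW3 : 0 ≤ ∏ j, ((1 : ℝ) ^ (u j).primeFactors.card / (u j : ℝ)) :=
          prod_nonneg fun i _ => by positivity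
        have e5 : (Real.log y) ^ ((N : ℝ) + E) = (Real.log y) ^ N * (Real.log y) ^ E := by
          rw [Real.rpow_add hly, Real.rpow_natCast]
        rw [e5]
        exact grow_div (pow_pos hly _) hP hpow (by positivity) (by positivity) hW1 hW2 hW3

end Pool.Agent.N701.H.AVGK
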