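import Mathlib
import Pool.Agent.N870.H.Stm
import Pool.Agent.N701.H.AVGKcore
import Pool.Agent.TH344.SG.Rank
import Pool.Agent.W307.RS.MainD

/-!
# Project H, part AVGK (subtask 11155)
-/

set_option autoImplicit false

namespace Pool.Agent.N701.H

open Pool.Agent.W307.SE

/-- H/AVGK -/
theorem t_AVGK : Pool.Agent.N870.H.S_AVGK := by
  intro k E hE J _ _ cls a μ α β hFm hsum B
  exact AVGK.core (r2 Pool.Agent.TH344.SG.sel2b)
    (Pool.Agent.W839.RS.cnt2s_of Pool.Agent.W340.RT.SVR2.svr2 Pool.Agent.W405.RS.avhs)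
    k E hE cls a μ α β hFm.cl hFm.a0 hFm.mu hFm.al hFm.res hFm.ev hFm.odd hFm.rel hsum B

end Pool.Agent.N701.H
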